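import Mathlib

/-!
# A rigid rational tuple with a large ratio gap

The tuple `(1, 3, 6, 7, 9, 14, 15)` is rigid: with `v₂ = X` the relations give
`v₃ = 2X`, `v₄ = 2X + 1`, `v₆ = 4X + 2`, `v₇ = 4X + 3`, `v₅ = 3X` and `v₇ = v₃ + v₅ = 5X`, so `X = 3`.
Its two smallest entries are `1` and `3 > 2 · 1`.
-/

set_option autoImplicit false

namespace Pool.Agent.Results.MP_ee20a5_al.RatioGap

/-- `x` is rigid: it is the only rational tuple satisfying every equation of the forms `v i = 1`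
and `v i + v j = v k` that `x` satisfies. -/
def IsRigid {n : ℕ} (x : Fin n → ℚ) : Prop :=
  ∀ y : Fin n → ℚ, (∀ i, x i = 1 → y i = 1) →
    (∀ i j k, x i + x j = x k → y i + y j = y k) → y = x

/-- The counterexample. -/
def tup : Fin 7 → ℚ := ![1, 3, 6, 7, 9, 14, 15]

theorem isRigid_tup : IsRigid tup := by
  intro y h1 h2
  have e0 : y 0 = 1 := h1 0 (by simp [tup])
  have e2 : y 1 + y 1 = y 2 := h2 1 1 2 (by simp [tup]; norm_num)
  have e3 : y 2 + y 0 = y 3 := h2 2 0 3 (by simp [tup]; norm_num)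
  have e4 : y 1 + y 2 = y 4 := h2 1 2 4 (by simp [tup]; norm_num)
  have e5 : y 3 + y 3 = y 5 := h2 3 3 5 (by simp [tup]; norm_num)
  have e6 : y 5 + y 0 = y 6 := h2 5 0 6 (by simp [tup]; norm_num)
  have e7 : y 2 + y 4 = y 6 := h2 2 4 6 (by simp [tup]; norm_num)
  have hX : y 1 = 3 := by linarith
  funext i
  fin_cases i
  · simpa [tup] using e0
  · simpa [tup] using hX
  · simp [tup]; linarith
  · simp [tup]; linarith
  · simp [tup]; linarith
  · simp [tup]; linarith
  · simp [tup]; linarith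

/-- **Q1 is false.** There is a rigid rational tuple with `|x 0| ≤ |x 1| ≤ ⋯` two consecutive
entries of which satisfy `|x i| ≥ 1` and `|x (i + 1)| > 2 |x i|`. -/
theorem result :
    ¬ ∀ (n : ℕ), 2 ≤ n → ∀ x : Fin n → ℚ, IsRigid x → (∀ i j : Fin n, i ≤ j → |x i| ≤ |x j|) →
      ∀ (i : ℕ) (hi : i + 1 < n), 1 ≤ |x ⟨i, Nat.lt_of_succ_lt hi⟩| →
        |x ⟨i + 1, hi⟩| ≤ 2 * |x ⟨i, Nat.lt_of_succ_lt hi⟩| := by
  intro H
  have hmono : ∀ i j : Fin 7, i ≤ j → |tup i| ≤ |tup j| := by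
    have hm : Monotone (fun i => |tup i|) := by
      refine Fin.monotone_iff_le_succ.2 ?_
      intro i
      fin_cases i <;> simp [tup, abs_of_pos] <;> norm_num [abs_of_pos]
    exact fun i j hij => hm hij
  have := H 7 (by norm_num) tup isRigid_tup hmono 0 (by norm_num) (by simp [tup])
  simp [tup] at this
  norm_num [abs_of_pos] at this

end Pool.Agent.Results.MP_ee20a5_al.RatioGap
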